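import Pool.Agent.H24R2.DZ.Spec

set_option autoImplicit false

/-! Project SD of helper186, part SB3: no zeros of the derivative at moderate distance. -/

namespace Pool.Agent.W368.SD

open Complex Filter Topology MeasureTheory Set
open Pool.Agent.H24R2.DZ

lemma iter_refl {F : ℂ → ℂ} (hF : Differentiable ℂ F)
    (hs : ∀ z : ℂ, F (-((starRingEnd ℂ) z)) = (starRingEnd ℂ) (F z)) (n : ℕ) :
    ∀ z : ℂ, iteratedDeriv n F z =
      (-1) ^ n * (starRingEnd ℂ) (iteratedDeriv n F (-((starRingEnd ℂ) z))) := by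
  induction n with
  | zero =>
    intro z
    simp only [iteratedDeriv_zero, pow_zero, one_mul]
    rw [hs, Complex.conj_conj]
  | succ n ih =>
    intro z
    have hcd : ContDiff ℂ (n + 1 : ℕ) F := hF.contDiff
    have hg : Differentiable ℂ (iteratedDeriv n F) :=
      hcd.differentiable_iteratedDeriv n (by exact_mod_cast Nat.lt_succ_self n)
    rw [iteratedDeriv_succ]
    have h1 : HasDerivAt (fun u => iteratedDeriv n F (-u))
        (-deriv (iteratedDeriv n F) (-((starRingEnd ℂ) z))) ((starRingEnd ℂ) z) := by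
      have h2 := (hg (-((starRingEnd ℂ) z))).hasDerivAt
      have h3 := h2.comp ((starRingEnd ℂ) z) (hasDerivAt_neg ((starRingEnd ℂ) z))
      rw [mul_neg_one] at h3
      exact h3
    have h2 := h1.conj_conj
    rw [Complex.conj_conj] at h2
    have h4 : HasDerivAt (iteratedDeriv n F) ((-1 : ℂ) ^ n * (starRingEnd ℂ)
        (-deriv (iteratedDeriv n F) (-((starRingEnd ℂ) z)))) z :=
      (h2.const_mul _).congr_of_eventuallyEq (Eventually.of_forall fun u => ih u)
    rw [h4.deriv, map_neg, pow_succ]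
    ring

lemma pos_case {η : ℝ} (hη : ∀ (n : ℕ) (p : ℂ) (F : ℂ → ℂ), 1 ≤ n →
    (∀ w ∈ Metric.ball p (3 / 2), DifferentiableAt ℂ F w ∧ F w ≠ 0 ∧ ‖logDeriv F w - n‖ ≤ η * n) →
    (n.factorial : ℝ) * ‖F p‖ ≤ 2 * ‖iteratedDeriv n F p‖)
    (a : ℝ) (n : ℕ) (F : ℂ → ℂ) (hn : 1 ≤ n) (hna : (n : ℝ) ≤ a) (hN : NN a η F) (z : ℂ)
    (h2 : 2 ≤ z.re) (h5 : z.re ≤ 5) (hi : |z.im| ≤ 1) : iteratedDeriv n F z ≠ 0 := by
  have hn0 : (0 : ℝ) < n := by exact_mod_cast hn
  have ha0 : 0 < a := hn0.trans_le hna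
  set c : ℝ := n / a with hc
  have hc0 : 0 < c := div_pos hn0 ha0
  have hc1 : c ≤ 1 := (div_le_one ha0).2 hna
  have hca : c * a = n := by rw [hc]; field_simp
  have hz6 : ‖z‖ ≤ 6 := by
    refine (Complex.norm_le_abs_re_add_abs_im z).trans ?_
    rw [abs_of_nonneg (by linarith : (0 : ℝ) ≤ z.re)]
    linarith
  set G : ℂ → ℂ := fun w => F (z + (c : ℂ) * w) with hG
  have hcd : ContDiff ℂ (n : ℕ) F := hN.diff.contDiff
  have hGd : Differentiable ℂ G := by
    intro w
    exact (hN.diff _).comp w (by fun_prop)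
  have hGn : iteratedDeriv n G 0 = (c : ℂ) ^ n * iteratedDeriv n F z := by
    have h1 : ContDiff ℂ (n : ℕ) (fun u => F (z + u)) := hcd.comp (by fun_prop)
    have e1 := congrFun (iteratedDeriv_comp_const_mul h1 (c : ℂ)) 0
    rw [iteratedDeriv_comp_const_add] at e1
    rw [hG, e1]
    simp
  have key := hη n 0 G hn (by
    intro w hw
    rw [Metric.mem_ball, dist_zero_right] at hw
    have hcw : ‖(c : ℂ) * w‖ ≤ 3 / 2 := by
      rw [norm_mul, Complex.norm_real, Real.norm_of_nonneg hc0.le]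
      nlinarith [norm_nonneg w]
    have hre : 1 / 1000 ≤ (z + (c : ℂ) * w).re := by
      have := (abs_re_le_norm ((c : ℂ) * w)).trans hcw
      have h3 := (abs_le.1 this).1
      rw [add_re]
      linarith
    have hno : ‖z + (c : ℂ) * w‖ ≤ 20 := by
      refine (norm_add_le _ _).trans ?_
      linarith
    obtain ⟨h3, h4⟩ := hN.far _ hre hno
    refine ⟨hGd w, h3, ?_⟩
    have h6 : logDeriv G w = (c : ℂ) * logDeriv F (z + (c : ℂ) * w) := by
      have h7 : deriv G w = (c : ℂ) * deriv F (z + (c : ℂ) * w) := by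
        have h8 := (hN.diff (z + (c : ℂ) * w)).hasDerivAt
        have h9 : HasDerivAt (fun w : ℂ => z + (c : ℂ) * w) (c : ℂ) w := by
          simpa using ((hasDerivAt_id w).const_mul (c : ℂ)).const_add z
        have h10 := h8.comp w h9
        rw [mul_comm]
        exact h10.deriv
      rw [logDeriv_apply, logDeriv_apply, h7, hG, mul_div_assoc]
    have h7 : logDeriv G w - n = (c : ℂ) * (logDeriv F (z + (c : ℂ) * w) - a) := by
      rw [h6, mul_sub]
      congr 1
      exact_mod_cast hca.symm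
    rw [h7, norm_mul, Complex.norm_real, Real.norm_of_nonneg hc0.le]
    calc c * ‖logDeriv F (z + (c : ℂ) * w) - a‖ ≤ c * (η * a) :=
          mul_le_mul_of_nonneg_left h4 hc0.le
      _ = η * n := by rw [← hca]; ring)
  intro h0
  rw [hGn, h0, mul_zero, norm_zero, mul_zero] at key
  have h3 : G 0 ≠ 0 := by
    rw [hG]
    simp only [mul_zero, add_zero]
    exact (hN.far z (by linarith) (by linarith)).1
  have h4 : 0 < (n.factorial : ℝ) * ‖G 0‖ :=
    mul_pos (by exact_mod_cast Nat.factorial_pos n) (norm_pos_iff.2 h3)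
  linarith

theorem sb3 (h : SB2) : SB3 := by
  obtain ⟨η, hη0, hη⟩ := h
  refine ⟨η, hη0, fun a n F hn hna hN z h2 h5 hi => ?_⟩
  rcases le_or_gt 0 z.re with hz | hz
  · rw [abs_of_nonneg hz] at h2 h5
    exact pos_case hη a n F hn hna hN z h2 h5 hi
  · rw [abs_of_neg hz] at h2 h5
    intro h0
    rw [iter_refl hN.diff hN.symm n z] at h0
    have h1 := (mul_eq_zero.1 h0).resolve_left (pow_ne_zero _ (by norm_num))
    refine pos_case hη a n F hn hna hN (-((starRingEnd ℂ) z)) ?_ ?_ ?_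
      ((map_eq_zero (starRingEnd ℂ)).1 h1)
    · rw [neg_re, conj_re]; exact h2
    · rw [neg_re, conj_re]; exact h5
    · rw [neg_im, conj_im, neg_neg]; exact hi

end Pool.Agent.W368.SD
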