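import Pool.Agent.H24R2.DZ.Spec

set_option autoImplicit false

/-! Project SD of helper186, part SMo: the mollifier coefficients. -/

namespace Pool.Agent.W368.SD

open Complex Filter Topology MeasureTheory Set
open Pool.Agent.H24R2.DZ

/-- the exponent -/
noncomputable def ss (L τ : ℝ) : ℂ := (1 + I * τ) / L

lemma ss_re (L τ : ℝ) : (ss L τ).re = 1 / L := by
  unfold ss
  rw [div_ofReal_re]
  simp

/-- the arithmetic function `h ^ (-s)` -/
noncomputable def af (s : ℂ) (hs : s ≠ 0) : ArithmeticFunction ℂ :=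
  ⟨fun h => (h : ℂ) ^ (-s), by simp [Complex.zero_cpow (neg_ne_zero.2 hs)]⟩

lemma af_mult (s : ℂ) (hs : s ≠ 0) : (af s hs).IsMultiplicative := by
  refine ⟨?_, ?_⟩
  · show ((1 : ℕ) : ℂ) ^ (-s) = 1
    simp
  · intro m n _
    show (((m * n : ℕ)) : ℂ) ^ (-s) = (m : ℂ) ^ (-s) * (n : ℂ) ^ (-s)
    rw [Nat.cast_mul, Complex.natCast_mul_natCast_cpow]

lemma mu_prod (f : ArithmeticFunction ℂ) (hf : f.IsMultiplicative) (n : ℕ) (hn : n ≠ 0) :
    ∑ d ∈ n.divisors, (ArithmeticFunction.moebius d : ℂ) * f d =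
      ∏ p ∈ n.primeFactors, (1 - f p) := by
  have h1 : (((ArithmeticFunction.moebius : ArithmeticFunction ℤ) : ArithmeticFunction ℂ).pmul f *
      ((ArithmeticFunction.zeta : ArithmeticFunction ℕ) : ArithmeticFunction ℂ)) =
      ArithmeticFunction.prodPrimeFactors (fun p => 1 - f p) := by
    rw [ArithmeticFunction.IsMultiplicative.eq_iff_eq_on_prime_powers]
    rotate_left
    · exact (ArithmeticFunction.isMultiplicative_moebius.intCast.pmul hf).mul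
        ArithmeticFunction.isMultiplicative_zeta.natCast
    · exact ArithmeticFunction.IsMultiplicative.prodPrimeFactors _
    intro p i hp
    rw [ArithmeticFunction.coe_mul_zeta_apply, Nat.sum_divisors_prime_pow hp,
      ArithmeticFunction.prodPrimeFactors_apply (pow_ne_zero _ hp.ne_zero)]
    rcases i with _ | i
    · simp [hf.1]
    · rw [Nat.primeFactors_prime_pow (Nat.succ_ne_zero i) hp, Finset.prod_singleton,
        Finset.sum_range_succ', Finset.sum_range_succ']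
      have h2 : ∑ k ∈ Finset.range i, (((ArithmeticFunction.moebius : ArithmeticFunction ℤ) :
          ArithmeticFunction ℂ).pmul f) (p ^ (k + 1 + 1)) = 0 := by
        refine Finset.sum_eq_zero fun k _ => ?_
        rw [ArithmeticFunction.pmul_apply, ArithmeticFunction.intCoe_apply,
          ArithmeticFunction.moebius_apply_prime_pow hp (by omega), if_neg (by omega)]
        simp
      rw [h2]
      simp only [zero_add, pow_one, pow_zero, ArithmeticFunction.pmul_apply,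
        ArithmeticFunction.intCoe_apply, ArithmeticFunction.moebius_apply_prime hp, hf.1,
        ArithmeticFunction.moebius_apply_one]
      push_cast
      ring
  have h3 := DFunLike.congr_fun h1 n
  rw [ArithmeticFunction.coe_mul_zeta_apply, ArithmeticFunction.prodPrimeFactors_apply hn] at h3
  rw [← h3]
  exact Finset.sum_congr rfl fun d _ => by
    rw [ArithmeticFunction.pmul_apply, ArithmeticFunction.intCoe_apply]

/-- the weight -/
noncomputable def rho (r τ : ℝ) : ℝ := (1 + |τ|) ^ (-r)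

lemma rho_pos (r τ : ℝ) : 0 < rho r τ := Real.rpow_pos_of_pos (by positivity) _

lemma rho_int (r : ℝ) (hr : 1 < r) : Integrable (rho r) := by
  have h := integrable_one_add_norm (E := ℝ) (μ := volume) (r := r) (by simpa using hr)
  exact h

lemma rho_cont (r : ℝ) : Continuous (rho r) := by
  unfold rho
  exact Continuous.rpow_const (by fun_prop) fun x => Or.inl (by positivity)

lemma rho_mul (r : ℝ) (k : ℕ) (τ : ℝ) : rho r τ * (1 + |τ|) ^ k = rho (r - k) τ := by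
  unfold rho
  rw [← Real.rpow_natCast, ← Real.rpow_add (by positivity)]
  congr 1
  ring

/-- Cauchy-Schwarz with a weight -/
lemma cs (ρ g : ℝ → ℝ) (hρ : ∀ τ, 0 ≤ ρ τ) (h0 : Integrable ρ) (h1 : Integrable fun τ => ρ τ * g τ)
    (h2 : Integrable fun τ => ρ τ * g τ ^ 2) :
    (∫ τ, ρ τ * g τ) ^ 2 ≤ (∫ τ, ρ τ) * ∫ τ, ρ τ * g τ ^ 2 := by
  set a := ∫ τ, ρ τ with ha
  set b := ∫ τ, ρ τ * g τ with hb
  set c := ∫ τ, ρ τ * g τ ^ 2 with hc
  have key : ∀ m : ℝ, 0 ≤ c - 2 * m * b + m ^ 2 * a := by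
    intro m
    have h3 : 0 ≤ ∫ τ, ρ τ * (g τ - m) ^ 2 :=
      integral_nonneg fun τ => mul_nonneg (hρ τ) (sq_nonneg _)
    have h4 : ∫ τ, ρ τ * (g τ - m) ^ 2 = c - 2 * m * b + m ^ 2 * a := by
      have h5 : (fun τ => ρ τ * (g τ - m) ^ 2) =
          fun τ => (ρ τ * g τ ^ 2 - 2 * m * (ρ τ * g τ)) + m ^ 2 * ρ τ := by
        funext τ; ring
      have i1 : Integrable (fun τ => ρ τ * g τ ^ 2 - 2 * m * (ρ τ * g τ)) :=
        h2.sub (h1.const_mul (2 * m))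
      have i2 : Integrable (fun τ => 2 * m * (ρ τ * g τ)) := h1.const_mul (2 * m)
      have i3 : Integrable (fun τ => m ^ 2 * ρ τ) := h0.const_mul (m ^ 2)
      rw [h5, integral_add i1 i3, integral_sub h2 i2, integral_const_mul, integral_const_mul]
    rw [← h4]
    exact h3
  have ha0 : 0 ≤ a := integral_nonneg hρ
  rcases ha0.eq_or_lt with h | h
  · rw [← h] at key ⊢
    by_contra hcon
    push Not at hcon
    rw [zero_mul] at hcon
    have hb0 : b ≠ 0 := fun hb0 => by rw [hb0] at hcon; simp at hcon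
    have h6 := key ((c + 1) / (2 * b))
    have h7 : c - 2 * ((c + 1) / (2 * b)) * b + ((c + 1) / (2 * b)) ^ 2 * 0 = -1 := by
      field_simp
      ring
    rw [h7] at h6
    linarith
  · have h6 := key (b / a)
    have h7 : c - 2 * (b / a) * b + (b / a) ^ 2 * a = c - b ^ 2 / a := by
      field_simp
      ring
    rw [h7, sub_nonneg, div_le_iff₀ h] at h6
    linarith

lemma cpow_cont (L : ℝ) (h : ℕ) (hh : 1 ≤ h) : Continuous fun τ : ℝ => (h : ℂ) ^ (-ss L τ) := by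
  refine Continuous.const_cpow ?_ (Or.inl (by exact_mod_cast (by omega : h ≠ 0)))
  unfold ss
  fun_prop

lemma cpow_norm (L τ : ℝ) (h : ℕ) (hh : 1 ≤ h) : ‖(h : ℂ) ^ (-ss L τ)‖ = (h : ℝ) ^ (-(1 / L)) := by
  rw [Complex.norm_natCast_cpow_of_pos hh, neg_re, ss_re]

lemma cpow_norm_le (L τ : ℝ) (hL : 1 ≤ L) (h : ℕ) (hh : 1 ≤ h) : ‖(h : ℂ) ^ (-ss L τ)‖ ≤ 1 := by
  rw [cpow_norm L τ h hh]
  refine Real.rpow_le_one_of_one_le_of_nonpos (by exact_mod_cast hh) ?_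
  have : 0 < 1 / L := by positivity
  linarith

/-- the hypotheses on the Fourier transform of the cut-off -/
structure FT (θ : ℝ) (z : ℂ) (W : ℝ) (w : ℝ → ℂ) : Prop where
  cont : Continuous w
  bd : ∀ τ, ‖w τ‖ ≤ W * rho 10 τ
  eq : ∀ u : ℝ, 0 ≤ u → ((ph (u / θ) : ℝ) : ℂ) * cexp (-(z * u)) =
    ∫ τ : ℝ, w τ * cexp (-((1 + I * τ) * u))

variable {θ W : ℝ} {z : ℂ} {w : ℝ → ℂ}

lemma FT.int_mul (h : FT θ z W w) (g : ℝ → ℂ) (hg : Continuous g) (K : ℝ) (hK : ∀ τ, ‖g τ‖ ≤ K) :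
    Integrable fun τ => w τ * g τ := by
  refine Integrable.mono' (((rho_int 10 (by norm_num)).const_mul W).mul_const K)
    (h.cont.mul hg).aestronglyMeasurable (Eventually.of_forall fun τ => ?_)
  rw [norm_mul]
  exact mul_le_mul (h.bd τ) (hK τ) (norm_nonneg _) ((norm_nonneg _).trans (h.bd τ))

lemma FT.W_nonneg (h : FT θ z W w) : 0 ≤ W := by
  have h1 := (norm_nonneg _).trans (h.bd 0)
  exact nonneg_of_mul_nonneg_left h1 (rho_pos _ _)

lemma FT.int_norm (h : FT θ z W w) : Integrable fun τ => ‖w τ‖ := by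
  have := h.int_mul (fun _ => 1) continuous_const 1 (fun _ => by simp)
  simpa using this.norm

lemma FT.bb_eq (L : ℝ) (hL : 1 ≤ L) (hθ : 0 < θ) (β : ℂ) (h : FT θ (L * β) W w) (m : ℕ)
    (hm : 1 ≤ m) : bb θ L β m =
      (ArithmeticFunction.moebius m : ℂ) * ∫ τ, w τ * (m : ℂ) ^ (-ss L τ) := by
  have hL0 : 0 < L := by linarith
  have hLC : (L : ℂ) ≠ 0 := by exact_mod_cast hL0.ne'
  have hm0 : (m : ℂ) ≠ 0 := by exact_mod_cast (by omega : m ≠ 0)
  have hu : 0 ≤ Real.log m / L := div_nonneg (Real.log_natCast_nonneg m) hL0.le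
  have h1 := h.eq _ hu
  unfold bb mo
  have e1 : Real.log m / (θ * L) = Real.log m / L / θ := by
    field_simp
  have e2 : (m : ℂ) ^ (-β) = cexp (-(L * β * ((Real.log m / L : ℝ) : ℂ))) := by
    rw [cpow_def_of_ne_zero hm0, Complex.natCast_log.symm]
    congr 1
    push_cast
    field_simp
  have e3 : ∀ τ : ℝ, (m : ℂ) ^ (-ss L τ) = cexp (-((1 + I * τ) * ((Real.log m / L : ℝ) : ℂ))) := by
    intro τ
    rw [cpow_def_of_ne_zero hm0, Complex.natCast_log.symm]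
    congr 1
    unfold ss
    push_cast
    field_simp
  simp only [e3]
  rw [← h1, e1, e2]
  push_cast
  ring

/-- the Euler product -/
noncomputable def PP (L : ℝ) (n : ℕ) (τ : ℝ) : ℂ :=
  ∏ p ∈ n.primeFactors, (1 - (p : ℂ) ^ (-ss L τ))

lemma PP_cont (L : ℝ) (n : ℕ) : Continuous (PP L n) := by
  unfold PP
  refine continuous_finsetProd _ fun p hp => continuous_const.sub (cpow_cont L p ?_)
  exact (Nat.prime_of_mem_primeFactors hp).one_lt.le

lemma PP_bd (L : ℝ) (hL : 1 ≤ L) (n : ℕ) (τ : ℝ) : ‖PP L n τ‖ ≤ 2 ^ n.primeFactors.card := by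
  unfold PP
  rw [norm_prod]
  refine (Finset.prod_le_prod (fun _ _ => norm_nonneg _) (g := fun _ => (2 : ℝ))
    fun p hp => ?_).trans (by simp)
  have h1 := cpow_norm_le L τ hL p (Nat.prime_of_mem_primeFactors hp).one_lt.le
  calc ‖1 - (p : ℂ) ^ (-ss L τ)‖ ≤ ‖(1 : ℂ)‖ + ‖(p : ℂ) ^ (-ss L τ)‖ := norm_sub_le _ _
    _ ≤ 2 := by rw [norm_one]; linarith

lemma FT.cc_eq (L : ℝ) (hL : 1 ≤ L) (hθ : 0 < θ) (β : ℂ) (h : FT θ (L * β) W w) (n : ℕ)
    (hn : 1 ≤ n) : cc (bb θ L β) n = ∫ τ, w τ * PP L n τ := by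
  have hL0 : 0 < L := by linarith
  unfold cc
  have h1 : ∀ m ∈ n.divisors, bb θ L β m =
      ∫ τ, w τ * ((ArithmeticFunction.moebius m : ℂ) * (m : ℂ) ^ (-ss L τ)) := by
    intro m hm
    rw [h.bb_eq L hL hθ β m (Nat.pos_of_mem_divisors hm), ← integral_const_mul]
    refine integral_congr_ae (Eventually.of_forall fun τ => ?_)
    show _ * (w τ * _) = w τ * (_ * _)
    ring
  rw [Finset.sum_congr rfl h1, ← integral_finsetSum]
  · refine integral_congr_ae (Eventually.of_forall fun τ => ?_)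
    show ∑ m ∈ n.divisors, w τ * ((ArithmeticFunction.moebius m : ℂ) * (m : ℂ) ^ (-ss L τ)) =
      w τ * PP L n τ
    rw [← Finset.mul_sum]
    congr 1
    have hs : ss L τ ≠ 0 := by
      intro h0
      have := ss_re L τ
      rw [h0, zero_re] at this
      have h2 : 0 < 1 / L := by positivity
      linarith
    exact mu_prod (af (ss L τ) hs) (af_mult _ hs) n (by omega)
  · intro m hm
    have hm1 : 1 ≤ m := Nat.pos_of_mem_divisors hm
    refine h.int_mul _ (continuous_const.mul (cpow_cont L m hm1))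
      ‖(ArithmeticFunction.moebius m : ℂ)‖ fun τ => ?_
    rw [norm_mul]
    exact mul_le_of_le_one_right (norm_nonneg _) (cpow_norm_le L τ hL m hm1)

lemma FT.cc_sq (L : ℝ) (hL : 1 ≤ L) (hθ : 0 < θ) (β : ℂ) (h : FT θ (L * β) W w) (n : ℕ)
    (hn : 1 ≤ n) : ‖cc (bb θ L β) n‖ ^ 2 ≤
      W ^ 2 * ((∫ τ, rho 10 τ) * ∫ τ, rho 10 τ * ‖PP L n τ‖ ^ 2) := by
  have hint : ∀ k : ℕ, Integrable fun τ => rho 10 τ * ‖PP L n τ‖ ^ k := by
    intro k
    refine Integrable.mono' ((rho_int 10 (by norm_num)).mul_const ((2 ^ n.primeFactors.card) ^ k))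
      ((rho_cont 10).mul ((PP_cont L n).norm.pow k)).aestronglyMeasurable
      (Eventually.of_forall fun τ => ?_)
    rw [norm_mul, Real.norm_of_nonneg (rho_pos 10 τ).le, norm_pow, norm_norm]
    exact mul_le_mul_of_nonneg_left (pow_le_pow_left₀ (norm_nonneg _) (PP_bd L hL n τ) k)
      (rho_pos 10 τ).le
  have h1 : Integrable fun τ => rho 10 τ * ‖PP L n τ‖ := by simpa using hint 1
  have h2 : ‖cc (bb θ L β) n‖ ≤ W * ∫ τ, rho 10 τ * ‖PP L n τ‖ := by
    rw [h.cc_eq L hL hθ β n hn, ← integral_const_mul]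
    refine norm_integral_le_of_norm_le (h1.const_mul W) (Eventually.of_forall fun τ => ?_)
    rw [norm_mul]
    calc ‖w τ‖ * ‖PP L n τ‖ ≤ (W * rho 10 τ) * ‖PP L n τ‖ :=
          mul_le_mul_of_nonneg_right (h.bd τ) (norm_nonneg _)
      _ = W * (rho 10 τ * ‖PP L n τ‖) := by ring
  have h3 := cs (rho 10) (fun τ => ‖PP L n τ‖) (fun τ => (rho_pos 10 τ).le)
    (rho_int 10 (by norm_num)) h1 (hint 2)
  calc ‖cc (bb θ L β) n‖ ^ 2 ≤ (W * ∫ τ, rho 10 τ * ‖PP L n τ‖) ^ 2 :=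
        pow_le_pow_left₀ (norm_nonneg _) h2 2
    _ = W ^ 2 * (∫ τ, rho 10 τ * ‖PP L n τ‖) ^ 2 := by ring
    _ ≤ _ := mul_le_mul_of_nonneg_left h3 (sq_nonneg _)

lemma part1 (C : ℝ) (hC : ∀ (L τ : ℝ) (N : ℕ), 1 ≤ L →
    ∑ n ∈ Finset.Icc 1 N, (n : ℝ) ^ (-(1 + 1 / L)) *
    ∏ p ∈ n.primeFactors, ‖1 - (p : ℂ) ^ (-((1 + I * τ) / L))‖ ^ 2 ≤ C * (1 + |τ|) ^ 8)
    (L : ℝ) (hL : 1 ≤ L) (hθ : 0 < θ) (β : ℂ) (h : FT θ (L * β) W w) (N : ℕ) :
    ∑ n ∈ Finset.Icc 1 N, (n : ℝ) ^ (-(1 + 1 / L)) * ‖cc (bb θ L β) n‖ ^ 2 ≤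
      W ^ 2 * ((∫ τ, rho 10 τ) * (C * ∫ τ, rho 2 τ)) := by
  have hint : ∀ n : ℕ, Integrable fun τ => rho 10 τ * ‖PP L n τ‖ ^ 2 := by
    intro n
    refine Integrable.mono' ((rho_int 10 (by norm_num)).mul_const ((2 ^ n.primeFactors.card) ^ 2))
      ((rho_cont 10).mul ((PP_cont L n).norm.pow 2)).aestronglyMeasurable
      (Eventually.of_forall fun τ => ?_)
    rw [norm_mul, Real.norm_of_nonneg (rho_pos 10 τ).le, norm_pow, norm_norm]
    exact mul_le_mul_of_nonneg_left (pow_le_pow_left₀ (norm_nonneg _) (PP_bd L hL n τ) 2)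
      (rho_pos 10 τ).le
  have hK0 : 0 ≤ ∫ τ, rho 10 τ := integral_nonneg fun τ => (rho_pos 10 τ).le
  calc ∑ n ∈ Finset.Icc 1 N, (n : ℝ) ^ (-(1 + 1 / L)) * ‖cc (bb θ L β) n‖ ^ 2
      ≤ ∑ n ∈ Finset.Icc 1 N, (n : ℝ) ^ (-(1 + 1 / L)) *
        (W ^ 2 * ((∫ τ, rho 10 τ) * ∫ τ, rho 10 τ * ‖PP L n τ‖ ^ 2)) :=
        Finset.sum_le_sum fun n hn => mul_le_mul_of_nonneg_left
          (h.cc_sq L hL hθ β n (Finset.mem_Icc.1 hn).1) (Real.rpow_nonneg (Nat.cast_nonneg _) _)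
    _ = W ^ 2 * ((∫ τ, rho 10 τ) * ∑ n ∈ Finset.Icc 1 N,
        ∫ τ, (n : ℝ) ^ (-(1 + 1 / L)) * (rho 10 τ * ‖PP L n τ‖ ^ 2)) := by
        rw [Finset.mul_sum, Finset.mul_sum]
        refine Finset.sum_congr rfl fun n _ => ?_
        rw [integral_const_mul]
        ring
    _ = W ^ 2 * ((∫ τ, rho 10 τ) * ∫ τ, ∑ n ∈ Finset.Icc 1 N,
        (n : ℝ) ^ (-(1 + 1 / L)) * (rho 10 τ * ‖PP L n τ‖ ^ 2)) := by
        rw [integral_finsetSum _ fun n _ => (hint n).const_mul _]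
    _ ≤ _ := by
        refine mul_le_mul_of_nonneg_left (mul_le_mul_of_nonneg_left ?_ hK0) (sq_nonneg _)
        rw [← integral_const_mul]
        refine integral_mono (integrable_finsetSum _ fun n _ => (hint n).const_mul _)
          ((rho_int 2 (by norm_num)).const_mul C) fun τ => ?_
        show ∑ n ∈ Finset.Icc 1 N, (n : ℝ) ^ (-(1 + 1 / L)) * (rho 10 τ * ‖PP L n τ‖ ^ 2) ≤
          C * rho 2 τ
        have h1 : ∑ n ∈ Finset.Icc 1 N, (n : ℝ) ^ (-(1 + 1 / L)) * (rho 10 τ * ‖PP L n τ‖ ^ 2) =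
            rho 10 τ * ∑ n ∈ Finset.Icc 1 N, (n : ℝ) ^ (-(1 + 1 / L)) *
              ∏ p ∈ n.primeFactors, ‖1 - (p : ℂ) ^ (-((1 + I * τ) / L))‖ ^ 2 := by
          rw [Finset.mul_sum]
          refine Finset.sum_congr rfl fun n _ => ?_
          unfold PP ss
          rw [norm_prod, ← Finset.prod_pow]
          ring
        rw [h1]
        calc _ ≤ rho 10 τ * (C * (1 + |τ|) ^ 8) :=
              mul_le_mul_of_nonneg_left (hC L τ N hL) (rho_pos 10 τ).le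
          _ = C * (rho 10 τ * (1 + |τ|) ^ 8) := by ring
          _ = C * rho 2 τ := by
              rw [rho_mul 10 8]
              norm_num

/-! ### The second part -/

lemma bb_zero_of (L : ℝ) (hL : 1 ≤ L) (hθ : 0 < θ) (β : ℂ) (y h : ℕ) (hy : Real.exp (θ * L) ≤ y)
    (hh : y < h) : bb θ L β h = 0 := by
  have hL0 : 0 < L := by linarith
  unfold bb mo ph
  have h1 : 1 ≤ Real.log h / (θ * L) := by
    rw [le_div_iff₀ (by positivity), one_mul]
    have h2 : Real.exp (θ * L) ≤ (h : ℝ) := hy.trans (by exact_mod_cast hh.le)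
    rw [Real.le_log_iff_exp_le (by linarith [Real.exp_pos (θ * L)])]
    exact h2
  rw [Real.smoothTransition.zero_of_nonpos (by linarith)]
  simp

lemma rr_eq (L : ℝ) (hL : 1 ≤ L) (hθ : 0 < θ) (β : ℂ) (y k : ℕ) (hy : Real.exp (θ * L) ≤ y)
    (hk : 1 ≤ k) : rr y (bb θ L β) k =
      ∑' m : ℕ, bb θ L β (k * m) / ((k * m : ℕ) : ℂ) := by
  unfold rr
  rw [tsum_eq_sum (s := Finset.Icc 1 (y / k))]
  · refine Finset.sum_nbij' (fun h => h / k) (fun m => k * m) ?_ ?_ ?_ ?_ ?_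
    · intro h hh
      rw [Finset.mem_filter, Finset.mem_Icc] at hh
      obtain ⟨⟨h1, h2⟩, c, rfl⟩ := hh
      rw [Finset.mem_Icc, Nat.mul_div_cancel_left _ hk]
      refine ⟨?_, ?_⟩
      · rcases Nat.eq_zero_or_pos c with rfl | hc
        · simp at h1
        · exact hc
      · exact (Nat.le_div_iff_mul_le hk).2 (by rw [mul_comm]; exact h2)
    · intro m hm
      rw [Finset.mem_Icc] at hm
      rw [Finset.mem_filter, Finset.mem_Icc]
      refine ⟨⟨Nat.mul_pos hk hm.1, ?_⟩, Dvd.intro _ rfl⟩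
      have := (Nat.le_div_iff_mul_le hk).1 hm.2
      rwa [mul_comm] at this
    · intro h hh
      rw [Finset.mem_filter] at hh
      exact Nat.mul_div_cancel' hh.2
    · intro m _
      exact Nat.mul_div_cancel_left _ hk
    · intro h hh
      rw [Finset.mem_filter] at hh
      rw [Nat.mul_div_cancel' hh.2]
  · intro m hm
    rw [Finset.mem_Icc] at hm
    rcases Nat.eq_zero_or_pos m with rfl | hm0
    · simp
    · have h1 : y / k < m := by omega
      have h2 : y < k * m := by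
        rw [Nat.div_lt_iff_lt_mul hk] at h1
        rwa [mul_comm] at h1
      rw [bb_zero_of L hL hθ β y _ hy h2, zero_div]

/-- the terms of the Dirichlet series -/
noncomputable def Hm (L : ℝ) (k m : ℕ) (τ : ℝ) : ℂ :=
  if m.Coprime k then (ArithmeticFunction.moebius m : ℂ) * (m : ℂ) ^ (-(1 + (1 + I * τ) / L))
    else 0

/-- the factor of `k` -/
noncomputable def kf (L : ℝ) (k : ℕ) (τ : ℝ) : ℂ :=
  (ArithmeticFunction.moebius k : ℂ) * (k : ℂ) ^ (-(1 + (1 + I * τ) / L))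

lemma mu_norm (m : ℕ) : ‖(ArithmeticFunction.moebius m : ℂ)‖ ≤ 1 := by
  have h := ArithmeticFunction.abs_moebius_le_one (n := m)
  rw [Complex.norm_intCast]
  exact_mod_cast h

lemma cpow1_norm (L τ : ℝ) (m : ℕ) (hm : 1 ≤ m) :
    ‖(m : ℂ) ^ (-(1 + (1 + I * τ) / L))‖ = (m : ℝ) ^ (-(1 + 1 / L)) := by
  rw [Complex.norm_natCast_cpow_of_pos hm]
  congr 1
  have := ss_re L τ
  unfold ss at this
  rw [neg_re, add_re, this, one_re]

lemma Hm_norm (L : ℝ) (k m : ℕ) (τ : ℝ) : ‖Hm L k m τ‖ ≤ (m : ℝ) ^ (-(1 + 1 / L)) := by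
  unfold Hm
  rcases Nat.eq_zero_or_pos m with rfl | hm
  · have : ‖(if (0 : ℕ).Coprime k then (ArithmeticFunction.moebius 0 : ℂ) *
      ((0 : ℕ) : ℂ) ^ (-(1 + (1 + I * τ) / L)) else 0)‖ = 0 := by simp
    rw [this]
    exact Real.rpow_nonneg (Nat.cast_nonneg _) _
  split_ifs
  · rw [norm_mul, cpow1_norm L τ m hm]
    exact mul_le_of_le_one_left (Real.rpow_nonneg (Nat.cast_nonneg _) _) (mu_norm m)
  · rw [norm_zero]
    exact Real.rpow_nonneg (Nat.cast_nonneg _) _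

lemma cpow1_cont (L : ℝ) (m : ℕ) (hm : 1 ≤ m) :
    Continuous fun τ : ℝ => (m : ℂ) ^ (-(1 + (1 + I * τ) / L)) := by
  refine Continuous.const_cpow (by fun_prop) (Or.inl (by exact_mod_cast (by omega : m ≠ 0)))

lemma Hm_cont (L : ℝ) (k m : ℕ) : Continuous (Hm L k m) := by
  unfold Hm
  rcases Nat.eq_zero_or_pos m with rfl | hm
  · simp only [ArithmeticFunction.map_zero, Int.cast_zero, zero_mul, ite_self]
    exact continuous_const
  split_ifs
  · exact continuous_const.mul (cpow1_cont L m hm)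
  · exact continuous_const

lemma kf_cont (L : ℝ) (k : ℕ) (hk : 1 ≤ k) : Continuous (kf L k) :=
  continuous_const.mul (cpow1_cont L k hk)

lemma kf_norm (L : ℝ) (hL : 1 ≤ L) (k : ℕ) (hk : 1 ≤ k) (τ : ℝ) : ‖kf L k τ‖ ≤ (k : ℝ)⁻¹ := by
  unfold kf
  rw [norm_mul, cpow1_norm L τ k hk]
  have hk1 : (1 : ℝ) ≤ k := by exact_mod_cast hk
  have h1 : (k : ℝ) ^ (-(1 + 1 / L)) ≤ (k : ℝ)⁻¹ := by
    rw [← Real.rpow_neg_one]
    refine Real.rpow_le_rpow_of_exponent_le hk1 ?_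
    have : 0 < 1 / L := by positivity
    linarith
  calc ‖(ArithmeticFunction.moebius k : ℂ)‖ * (k : ℝ) ^ (-(1 + 1 / L))
      ≤ 1 * (k : ℝ) ^ (-(1 + 1 / L)) :=
        mul_le_mul_of_nonneg_right (mu_norm k) (Real.rpow_nonneg (Nat.cast_nonneg _) _)
    _ ≤ _ := by rw [one_mul]; exact h1

lemma term_eq (L : ℝ) (k m : ℕ) (hk : 1 ≤ k) (τ : ℝ) :
    (ArithmeticFunction.moebius (k * m) : ℂ) * ((k * m : ℕ) : ℂ) ^ (-ss L τ) /
      ((k * m : ℕ) : ℂ) = kf L k τ * Hm L k m τ := by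
  rcases Nat.eq_zero_or_pos m with rfl | hm
  · simp [Hm]
  have hk0 : (k : ℂ) ≠ 0 := by exact_mod_cast (by omega : k ≠ 0)
  have hm0 : (m : ℂ) ≠ 0 := by exact_mod_cast (by omega : m ≠ 0)
  have hkm0 : ((k * m : ℕ) : ℂ) ≠ 0 := by push_cast; exact mul_ne_zero hk0 hm0
  have h1 : ((k * m : ℕ) : ℂ) ^ (-ss L τ) / ((k * m : ℕ) : ℂ) =
      (k : ℂ) ^ (-(1 + (1 + I * τ) / L)) * (m : ℂ) ^ (-(1 + (1 + I * τ) / L)) := by
    rw [← Complex.natCast_mul_natCast_cpow, ← Nat.cast_mul]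
    rw [show -(1 + (1 + I * (τ : ℂ)) / (L : ℂ)) = -ss L τ - 1 by unfold ss; ring,
      cpow_sub _ _ hkm0, cpow_one]
  rw [mul_div_assoc, h1]
  unfold kf Hm
  split_ifs with hc
  · rw [ArithmeticFunction.isMultiplicative_moebius.map_mul_of_coprime hc.symm]
    push_cast
    ring
  · have h2 : ArithmeticFunction.moebius (k * m) = 0 := by
      refine ArithmeticFunction.moebius_eq_zero_of_not_squarefree fun hsq => hc ?_
      exact (Nat.coprime_of_squarefree_mul hsq).symm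
    rw [h2]
    simp

lemma part2 (C : ℝ) (hC : ∀ (L τ : ℝ) (k : ℕ), 1 ≤ L → 1 ≤ k →
    ‖∑' m : ℕ, if m.Coprime k then (ArithmeticFunction.moebius m : ℂ) *
      (m : ℂ) ^ (-(1 + (1 + I * τ) / L)) else 0‖ ≤
      C * (k / (Nat.totient k : ℝ)) * (1 + |τ|) ^ 2 / L)
    (L : ℝ) (hL : 1 ≤ L) (hθ : 0 < θ) (β : ℂ) (h : FT θ (L * β) W w) (y k : ℕ)
    (hy : Real.exp (θ * L) ≤ y) (hk : 1 ≤ k) :
    ‖rr y (bb θ L β) k‖ ≤ W * C / (L * (Nat.totient k : ℝ)) * ∫ τ, rho 8 τ := by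
  have hL0 : 0 < L := by linarith
  have hk0 : (0 : ℝ) < k := by exact_mod_cast hk
  have hφ0 : (0 : ℝ) < (Nat.totient k : ℝ) := by exact_mod_cast Nat.totient_pos.2 hk
  -- the terms
  set f : ℕ → ℝ → ℂ := fun m τ => w τ * (kf L k τ * Hm L k m τ) with hf
  have hbd : ∀ m τ, ‖kf L k τ * Hm L k m τ‖ ≤ (m : ℝ) ^ (-(1 + 1 / L)) := by
    intro m τ
    rw [norm_mul]
    have h1 : ‖kf L k τ‖ ≤ 1 := (kf_norm L hL k hk τ).trans (inv_le_one_of_one_le₀
      (by exact_mod_cast hk))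
    calc ‖kf L k τ‖ * ‖Hm L k m τ‖ ≤ 1 * (m : ℝ) ^ (-(1 + 1 / L)) :=
          mul_le_mul h1 (Hm_norm L k m τ) (norm_nonneg _) zero_le_one
      _ = _ := one_mul _
  have hfi : ∀ m, Integrable (f m) := fun m =>
    h.int_mul _ ((kf_cont L k hk).mul (Hm_cont L k m)) _ (hbd m)
  have hterm : ∀ m : ℕ, bb θ L β (k * m) / ((k * m : ℕ) : ℂ) = ∫ τ, f m τ := by
    intro m
    rcases Nat.eq_zero_or_pos m with rfl | hm
    · simp [hf, Hm]
    · rw [h.bb_eq L hL hθ β (k * m) (Nat.mul_pos hk hm), mul_div_assoc, ← integral_div,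
        ← integral_const_mul]
      refine integral_congr_ae (Eventually.of_forall fun τ => ?_)
      show _ = w τ * (kf L k τ * Hm L k m τ)
      rw [← term_eq L k m hk τ]
      ring
  have hsum : Summable fun m : ℕ => ∫ τ, ‖f m τ‖ := by
    refine Summable.of_nonneg_of_le (fun m => integral_nonneg fun τ => norm_nonneg _)
      (fun m => ?_) ((Real.summable_nat_rpow (p := -(1 + 1 / L)).2 (by
        have : 0 < 1 / L := by positivity
        linarith)).mul_left (∫ τ, ‖w τ‖))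
    rw [← integral_mul_const]
    refine integral_mono (hfi m).norm (h.int_norm.mul_const _) fun τ => ?_
    show ‖w τ * (kf L k τ * Hm L k m τ)‖ ≤ ‖w τ‖ * (m : ℝ) ^ (-(1 + 1 / L))
    rw [norm_mul]
    exact mul_le_mul_of_nonneg_left (hbd m τ) (norm_nonneg _)
  have hHS := hasSum_integral_of_summable_integral_norm hfi hsum
  rw [rr_eq L hL hθ β y k hy hk, tsum_congr hterm, hHS.tsum_eq]
  have hts : ∀ τ, ∑' m, f m τ = w τ * (kf L k τ * ∑' m, Hm L k m τ) := by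
    intro τ
    rw [hf]
    simp only
    rw [tsum_mul_left, tsum_mul_left]
  simp only [hts]
  rw [← integral_const_mul]
  refine norm_integral_le_of_norm_le ((rho_int 8 (by norm_num)).const_mul _)
    (Eventually.of_forall fun τ => ?_)
  rw [norm_mul, norm_mul]
  have h1 : ‖∑' m, Hm L k m τ‖ ≤ C * (k / (Nat.totient k : ℝ)) * (1 + |τ|) ^ 2 / L :=
    hC L τ k hL hk
  have h2 : 0 ≤ C * (k / (Nat.totient k : ℝ)) * (1 + |τ|) ^ 2 / L := (norm_nonneg _).trans h1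
  calc ‖w τ‖ * (‖kf L k τ‖ * ‖∑' m, Hm L k m τ‖)
      ≤ (W * rho 10 τ) * ((k : ℝ)⁻¹ * (C * (k / (Nat.totient k : ℝ)) * (1 + |τ|) ^ 2 / L)) := by
        refine mul_le_mul (h.bd τ) (mul_le_mul (kf_norm L hL k hk τ) h1 (norm_nonneg _)
          (by positivity)) (by positivity) ((norm_nonneg _).trans (h.bd τ))
    _ = W * C / (L * (Nat.totient k : ℝ)) * (rho 10 τ * (1 + |τ|) ^ 2) := by
        field_simp
    _ = W * C / (L * (Nat.totient k : ℝ)) * rho 8 τ := by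
        rw [rho_mul 10 2]
        norm_num

theorem smo (h1 : SFour) (h2 : SCsum) (h3 : SInvZ) : SMo := by
  intro θ hθ hθ1
  obtain ⟨C1, hC1, hF⟩ := h1 θ hθ hθ1
  obtain ⟨C2, hC2, hS⟩ := h2
  obtain ⟨C3, hC3, hI⟩ := h3
  set K0 := ∫ τ, rho 10 τ with hK0
  set K2 := ∫ τ, rho 2 τ with hK2
  set K8 := ∫ τ, rho 8 τ with hK8
  have hK0' : 0 ≤ K0 := integral_nonneg fun τ => (rho_pos _ τ).le
  have hK2' : 0 ≤ K2 := integral_nonneg fun τ => (rho_pos _ τ).le
  have hK8' : 0 ≤ K8 := integral_nonneg fun τ => (rho_pos _ τ).le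
  refine ⟨C1 ^ 2 * (K0 * (C2 * K2)) + C1 * C3 * K8 + 1, by positivity, fun L β hL => ?_⟩
  have hL0 : 0 < L := by linarith
  obtain ⟨w, hwc, hwb, hwe⟩ := hF (L * β)
  have hnz : ‖(L : ℂ) * β‖ = L * ‖β‖ := by
    rw [norm_mul, Complex.norm_real, Real.norm_of_nonneg hL0.le]
  set W := C1 * (1 + L * ‖β‖) ^ 10 * Real.exp (θ * (L * ‖β‖)) with hW
  have hft : FT θ (L * β) W w := by
    refine ⟨hwc, fun τ => ?_, hwe⟩
    have := hwb τ
    rw [hnz] at this
    exact this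
  constructor
  · intro N
    refine (part1 C2 hS L hL hθ β hft N).trans ?_
    have e1 : W ^ 2 = C1 ^ 2 * ((1 + L * ‖β‖) ^ 20 * Real.exp (2 * θ * L * ‖β‖)) := by
      rw [hW, mul_pow, mul_pow, ← Real.exp_nat_mul]
      push_cast
      ring_nf
    rw [e1]
    have h5 : 0 ≤ (1 + L * ‖β‖) ^ 20 * Real.exp (2 * θ * L * ‖β‖) := by positivity
    have h6 : 0 ≤ (C1 * C3 * K8 + 1) * ((1 + L * ‖β‖) ^ 20 * Real.exp (2 * θ * L * ‖β‖)) := by
      positivity
    calc _ = C1 ^ 2 * (K0 * (C2 * K2)) *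
          ((1 + L * ‖β‖) ^ 20 * Real.exp (2 * θ * L * ‖β‖)) := by ring
      _ ≤ C1 ^ 2 * (K0 * (C2 * K2)) *
          ((1 + L * ‖β‖) ^ 20 * Real.exp (2 * θ * L * ‖β‖)) +
          (C1 * C3 * K8 + 1) * ((1 + L * ‖β‖) ^ 20 * Real.exp (2 * θ * L * ‖β‖)) := by linarith
      _ = _ := by ring
  · intro y k hy hk
    refine (part2 C3 hI L hL hθ β hft y k hy hk).trans ?_
    have hφ0 : (0 : ℝ) < (Nat.totient k : ℝ) := by exact_mod_cast Nat.totient_pos.2 hk
    have e2 : θ * (L * ‖β‖) = θ * L * ‖β‖ := by ring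
    rw [hW, e2]
    have h5 : 0 ≤ (1 + L * ‖β‖) ^ 10 * Real.exp (θ * L * ‖β‖) / (L * (Nat.totient k : ℝ)) := by
      positivity
    have h6 : 0 ≤ (C1 ^ 2 * (K0 * (C2 * K2)) + 1) *
        ((1 + L * ‖β‖) ^ 10 * Real.exp (θ * L * ‖β‖) / (L * (Nat.totient k : ℝ))) := by
      positivity
    calc _ = C1 * C3 * K8 *
          ((1 + L * ‖β‖) ^ 10 * Real.exp (θ * L * ‖β‖) / (L * (Nat.totient k : ℝ))) := by ring
      _ ≤ C1 * C3 * K8 *
          ((1 + L * ‖β‖) ^ 10 * Real.exp (θ * L * ‖β‖) / (L * (Nat.totient k : ℝ))) +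
          (C1 ^ 2 * (K0 * (C2 * K2)) + 1) *
          ((1 + L * ‖β‖) ^ 10 * Real.exp (θ * L * ‖β‖) / (L * (Nat.totient k : ℝ))) := by linarith
      _ = _ := by ring

end Pool.Agent.W368.SD
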